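import Pool.Agent.MP_ea150c_mp.H16.FSpec

/-! Transfer of the level one hypotheses to the total complex. -/

namespace Pool.Agent.MP_ea150c_mp.H75

open Pool.Agent.MP_ea150c_mp.H49 Pool.Agent.MP_ea150c_mp.H16

section
variable {O E : Type} [CommRing O] [AddCommGroup E] [Module O E]

theorem fa_sm (c : O) (M : Submodule O E) (x : E) : x ∈ sm c M ↔ ∃ y ∈ M, x = c • y := by
  simp [sm, eq_comm]

theorem fa_top (c : O) (x : E) : x ∈ sm c (⊤ : Submodule O E) ↔ ∃ y, x = c • y := by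
  simp [fa_sm]

theorem fa_sup (c : O) (M N : Submodule O E) (x : E) :
    x ∈ M ⊔ sm c N ↔ ∃ a ∈ M, ∃ y ∈ N, x = a + c • y := by
  rw [Submodule.mem_sup]
  constructor
  · rintro ⟨a, ha, b, hb, rfl⟩
    obtain ⟨y, hy, rfl⟩ := (fa_sm c N b).1 hb
    exact ⟨a, ha, y, hy, rfl⟩
  · rintro ⟨a, ha, y, hy, rfl⟩
    exact ⟨a, ha, c • y, (fa_sm c N _).2 ⟨y, hy, rfl⟩, rfl⟩

end

section
variable {O TB TL TX : Type} [CommRing O] [AddCommGroup TB] [Module O TB]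
  [AddCommGroup TL] [Module O TL] [AddCommGroup TX] [Module O TX]
  {π : O} {C : Cx O TB TL TX} {G : Fr O TB TL TX}

variable (π C G) in
/-- The conclusion of the level one hypothesis. -/
def FaGood (b : TB) (z : TL) : Prop :=
  ∃ β ∈ C.B1, ∃ ζ ∈ C.L1,
    G.ΦB b - π • (C.dB β + C.sB (C.bd ζ)) ∈ C.B0 ⊔ sm (π ^ 2) ⊤ ∧
    G.H b + G.ΦL z - π • C.dL ζ ∈ sm (π ^ 2) (⊤ : Submodule O TL)

theorem fa_add {b b' : TB} {z z' : TL} (h : FaGood π C G b z) (h' : FaGood π C G b' z') :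
    FaGood π C G (b + b') (z + z') := by
  obtain ⟨β, hβ, ζ, hζ, h1, h2⟩ := h
  obtain ⟨β', hβ', ζ', hζ', h1', h2'⟩ := h'
  refine ⟨β + β', add_mem hβ hβ', ζ + ζ', add_mem hζ hζ', ?_, ?_⟩
  · have := add_mem h1 h1'
    have e : G.ΦB (b + b') - π • (C.dB (β + β') + C.sB (C.bd (ζ + ζ'))) =
        G.ΦB b - π • (C.dB β + C.sB (C.bd ζ)) + (G.ΦB b' - π • (C.dB β' + C.sB (C.bd ζ'))) := by
      simp only [map_add]
      module
    rwa [e]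
  · have := add_mem h2 h2'
    have e : G.H (b + b') + G.ΦL (z + z') - π • C.dL (ζ + ζ') =
        G.H b + G.ΦL z - π • C.dL ζ + (G.H b' + G.ΦL z' - π • C.dL ζ') := by
      simp only [map_add]
      module
    rwa [e]

theorem fa_vB (hD : ParD π C G) (b : TB) :
    ∃ b0 ∈ C.B0, ∃ b1 ∈ C.B1, ∃ t, G.ΦB b = b0 + π • b1 + π ^ 2 • t := by
  obtain ⟨a, ha, t, -, e⟩ := (fa_sup _ _ _ _).1 (hD.vB b)
  obtain ⟨b0, h0, b1, h1, rfl⟩ := (fa_sup _ _ _ _).1 ha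
  exact ⟨b0, h0, b1, h1, t, e⟩

theorem fa_vL {x : TL} (h : x ∈ sm π C.L1 ⊔ sm (π ^ 2) ⊤) :
    ∃ z ∈ C.L1, ∃ t, x = π • z + π ^ 2 • t := by
  obtain ⟨a, ha, t, -, e⟩ := (fa_sup _ _ _ _).1 h
  obtain ⟨z, hz, rfl⟩ := (fa_sm _ _ _).1 ha
  exact ⟨z, hz, t, e⟩

theorem fa_pi (hD : ParD π C G) (hH : ParH π C G) (b : TB) (z : TL) :
    FaGood π C G (π • b) (π • z) := by
  obtain ⟨b0, h0, b1, -, t, e⟩ := fa_vB hD b
  obtain ⟨z1, -, t1, e1⟩ := fa_vL (hH.vH b)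
  obtain ⟨z2, -, t2, e2⟩ := fa_vL (hD.vL z)
  refine ⟨0, zero_mem _, 0, zero_mem _, ?_, ?_⟩
  · refine (fa_sup _ _ _ _).2 ⟨π • b0, Submodule.smul_mem _ _ h0, b1 + π • t, trivial, ?_⟩
    simp only [map_smul, map_zero, e]
    module
  · refine (fa_top _ _).2 ⟨z1 + z2 + π • (t1 + t2), ?_⟩
    simp only [map_smul, map_zero, e1, e2]
    module

theorem fa_D (hS : Str π C) (hD : ParD π C G) (hH : ParH π C G) (hC : Com (π ^ 2) C G)
    (b : TB) (z : TL) : FaGood π C G (C.dB b + C.sB (C.bd z)) (C.dL z) := by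
  obtain ⟨b0, h0, b1, h1, t, e⟩ := fa_vB hD b
  obtain ⟨z1, hz1, t1, e1⟩ := fa_vL (hH.vH b)
  obtain ⟨z2, hz2, t2, e2⟩ := fa_vL (hD.vL z)
  obtain ⟨u1, c1⟩ := (fa_top _ _).1 (hC.c1 b)
  obtain ⟨u2, c2⟩ := (fa_top _ _).1 (hC.c2 z)
  obtain ⟨u4, c4⟩ := (fa_top _ _).1 (hC.c4 z)
  obtain ⟨u5, c5⟩ := (fa_top _ _).1 (hC.c5 b)
  obtain ⟨k1, ek1⟩ := (fa_top _ _).1 (hH.vKB b)
  obtain ⟨k2, ek2⟩ := (fa_top _ _).1 (hH.vKL z)
  refine ⟨b1, h1, z1 + z2, add_mem hz1 hz2, ?_, ?_⟩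
  · refine (fa_sup _ _ _ _).2 ⟨C.dB b0, hS.d0 _ h0,
      C.dB t + C.sB (C.bd (t1 + t2)) - u1 - C.sB u2, trivial, ?_⟩
    have c2' := congrArg C.sB c2
    rw [map_sub, hD.sB (C.bd z)] at c2'
    rw [e, e1] at c1
    rw [e2] at c2'
    simp only [map_add, map_smul] at c1 c2' ⊢
    linear_combination (norm := module) -c1 - c2'
  · refine (fa_top _ _).2 ⟨C.dL (t1 + t2) + C.sL (C.inc (k1 + k2)) - u4 - u5, ?_⟩
    rw [e2, ek2] at c4
    rw [e1, ek1] at c5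
    simp only [map_add, map_smul] at c4 c5 ⊢
    linear_combination (norm := module) -c4 - c5

theorem fa_sym (hS : Str π C) {h : O} (h2 : h * 2 = 1) (ha : H1aT π C) {x : TL} (hx : x ∈ C.L1)
    (hs : C.sL x = -x) (hd : C.dL x ∈ sm π C.L1) :
    ∃ z ∈ C.L1, C.sL z = z ∧ ∃ y ∈ C.L1, x = C.dL z + π • y := by
  obtain ⟨z, hz, hm⟩ := ha x hx hs hd
  obtain ⟨y, hy, e⟩ := (fa_sm _ _ _).1 hm
  have e' := congrArg C.sL e
  rw [map_sub, hs, hS.sdL, map_smul] at e'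
  refine ⟨h • (z + C.sL z), Submodule.smul_mem _ _ (add_mem hz (hS.sL1 _ hz)), ?_,
    h • (y - C.sL y), Submodule.smul_mem _ _ (sub_mem hy (hS.sL1 _ hy)), ?_⟩
  · rw [map_smul, map_add, hS.ssL, add_comm]
  · simp only [map_add, map_smul]
    linear_combination (norm := module) h • e - h • e' - h2 • x

theorem fa_X (hS : Str π C) (hD : ParD π C G) (hH : ParH π C G) (hC : Com (π ^ 2) C G)
    {h : O} (h2 : h * 2 = 1) {𝒳 : Submodule O TB} (ha : H1aT π C) (hb : H1bT π C 𝒳)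
    (hc : H1cT π C G 𝒳) {v : TB} (hv : v ∈ 𝒳) : FaGood π C G v 0 := by
  obtain ⟨-, sv, dv⟩ := hb.1 v hv
  obtain ⟨b0, h0, w, hw, t, sw, e⟩ : ∃ b0 ∈ C.B0, ∃ w ∈ C.B1, ∃ t, C.sB w = w ∧
      G.ΦB v = b0 + π • w + π ^ 2 • t := by
    obtain ⟨b0, h0, b1, h1, t, e⟩ := fa_vB hD v
    have e' := congrArg C.sB e
    rw [hD.sB, sv] at e'
    simp only [map_add, map_smul] at e'
    refine ⟨h • (b0 + C.sB b0), Submodule.smul_mem _ _ (add_mem h0 (hS.s0 _ h0)),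
      h • (b1 + C.sB b1), Submodule.smul_mem _ _ (add_mem h1 (hS.s1 _ h1)),
      h • (t + C.sB t), ?_, ?_⟩
    · rw [map_smul, map_add, hS.ssB, add_comm]
    · linear_combination (norm := module) h • e + h • e' - h2 • G.ΦB v
  obtain ⟨ζ, hζ, t', sζ, e1⟩ : ∃ ζ ∈ C.L1, ∃ t', C.sL ζ = -ζ ∧ G.H v = π • ζ + π ^ 2 • t' := by
    obtain ⟨z1, hz1, t1, e1⟩ := fa_vL (hH.vH v)
    have e' := congrArg C.sL e1
    rw [hH.sH, sv] at e'
    simp only [map_add, map_smul] at e'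
    refine ⟨h • (z1 - C.sL z1), Submodule.smul_mem _ _ (sub_mem hz1 (hS.sL1 _ hz1)),
      h • (t1 - C.sL t1), ?_, ?_⟩
    · rw [map_smul, map_sub, hS.ssL]
      module
    · linear_combination (norm := module) h • e1 - h • e' - h2 • G.H v
  obtain ⟨u1, c1⟩ := (fa_top _ _).1 (hC.c1 v)
  obtain ⟨u5, c5⟩ := (fa_top _ _).1 (hC.c5 v)
  obtain ⟨k1, ek1⟩ := (fa_top _ _).1 (hH.vKB v)
  rw [dv, map_zero, e1, ek1] at c5
  rw [dv, map_zero, e, e1, ← hS.bds] at c1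
  simp only [map_add, map_smul, sζ, map_neg] at c1 c5
  have hdζ : C.dL ζ = π • (u5 - C.dL t' - C.sL (C.inc k1)) := by
    rw [← sub_eq_zero]
    apply hS.tfL
    linear_combination (norm := module) c5
  have hdζ' : C.dL ζ ∈ sm π C.L1 :=
    (fa_sm _ _ _).2 ⟨_, hS.satL _ (hdζ ▸ hS.dL1 _ hζ), hdζ⟩
  obtain ⟨t3, ht3⟩ : ∃ t3, t3 = u1 - C.dB t - C.bd (C.sL t') := ⟨_, rfl⟩
  have hr : C.dB w - C.bd ζ - π • t3 ∈ C.B0 := by
    apply hS.sat0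
    have : π • (C.dB w - C.bd ζ - π • t3) = -C.dB b0 := by
      rw [ht3]
      linear_combination (norm := module) c1
    rw [this]
    exact neg_mem (hS.d0 _ h0)
  have h3 : t3 ∈ C.B1 := by
    apply hS.sat1
    have : π • t3 = C.dB w - C.bd ζ - (C.dB w - C.bd ζ - π • t3) := by module
    rw [this]
    exact sub_mem (sub_mem (hS.d1 _ hw) (hS.bd1 _ hζ)) (hS.le01 hr)
  obtain ⟨ζ', hζ', sζ', ζ'', hζ'', eζ⟩ := fa_sym hS h2 ha hζ sζ hdζ'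
  obtain ⟨v2, hv2, β, hβ, hm⟩ := hb.2 (w - C.bd ζ') (sub_mem hw (hS.bd1 _ hζ'))
    (by rw [map_sub, sw, ← hS.bds, sζ']) (by
      refine (fa_sup _ _ _ _).2 ⟨_, hr, t3 + C.bd ζ'', add_mem h3 (hS.bd1 _ hζ''), ?_⟩
      have := congrArg C.bd eζ
      rw [map_add, map_smul, hS.bdd] at this
      rw [map_sub]
      linear_combination (norm := module) this)
  obtain ⟨ζ2, hζ2, sζ2, dζ2, hm2⟩ := hc v hv w hw
    ((fa_sup _ _ _ _).2 ⟨b0, h0, t, trivial, by rw [e]; module⟩) ζ' hζ' β hβ v2 hv2 (by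
      have : w - C.bd ζ' - C.dB β - v2 = w - C.bd ζ' - v2 - C.dB β := by abel
      rwa [this])
  obtain ⟨r1, hr1, y1, -, er1⟩ := (fa_sup _ _ _ _).1 hm
  obtain ⟨r2, hr2, y2, -, er2⟩ := (fa_sup _ _ _ _).1 hm2
  refine ⟨β, hβ, ζ' + ζ2, add_mem hζ' hζ2, ?_, ?_⟩
  · refine (fa_sup _ _ _ _).2 ⟨b0 + π • (r1 + r2),
      add_mem h0 (Submodule.smul_mem _ _ (add_mem hr1 hr2)), t + y1 + y2, trivial, ?_⟩
    rw [← hS.bds, map_add, sζ', sζ2, map_add, e]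
    linear_combination (norm := module) π • er1 + π • er2
  · refine (fa_top _ _).2 ⟨ζ'' + t', ?_⟩
    rw [map_zero, map_add, dζ2, e1]
    linear_combination (norm := module) π • eζ

end

theorem absH1 : AbsH1 := by
  intro O TB TL TX _ _ _ _ _ _ _ π C G e 𝒳 h2u hS hD hH hC h0 he ha hb hc b hb1 z hz sb sz hdb hdz
  obtain ⟨h, h2⟩ := h2u.exists_left_inv
  obtain ⟨z', hz', sz', z'', hz'', ez⟩ := fa_sym hS h2 ha hz sz hdz
  obtain ⟨w, hw, ew⟩ := (fa_sm _ _ _).1 hdb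
  have e1 : C.dB (b - C.bd z') = π • (w - C.sB (C.bd z'')) := by
    have a1 := congrArg (fun x => C.sB (C.bd x)) ez
    simp only [map_add, map_smul] at a1
    rw [hS.bdd, hS.sdB, ← hS.bds z', sz'] at a1
    rw [map_sub]
    linear_combination (norm := module) ew - a1
  have hw' : w - C.sB (C.bd z'') ∈ C.B1 := sub_mem hw (hS.s1 _ (hS.bd1 _ hz''))
  obtain ⟨v, hv, β, hβ, hm⟩ := hb.2 (b - C.bd z') (sub_mem hb1 (hS.bd1 _ hz'))
    (by rw [map_sub, sb, ← hS.bds, sz'])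
    ((fa_sup _ _ _ _).2 ⟨0, zero_mem _, _, hw', by rw [e1, zero_add]⟩)
  obtain ⟨b0, hb0, b1, -, eb⟩ := (fa_sup _ _ _ _).1 hm
  have e2 : C.dB b0 = π • (w - C.sB (C.bd z'') - C.dB b1) := by
    have a1 := congrArg C.dB eb
    rw [map_sub, map_sub, e1, (hb.1 v hv).2.2, hS.ddB, map_add, map_smul] at a1
    linear_combination (norm := module) -a1
  obtain ⟨c, z0, -, hm0⟩ := h0.2.2 b0 hb0
    ((fa_sm _ _ _).2 ⟨_, hS.sat0 _ (e2 ▸ hS.d0 _ hb0), e2⟩)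
  obtain ⟨y, -, ey⟩ := (fa_sm _ _ _).1 hm0
  have g1 := fa_D hS hD hH hC (β + z0) z'
  have g2 := fa_pi hD hH (b1 + y) z''
  have g3 := fa_X hS hD hH hC h2 ha hb hc (add_mem hv (Submodule.smul_mem _ c he))
  have g := fa_add (fa_add g1 g2) g3
  have e3 : C.dB (β + z0) + C.sB (C.bd z') + π • (b1 + y) + (v + c • e) = b := by
    rw [← hS.bds, sz', map_add]
    linear_combination (norm := module) -eb - ey
  rw [e3, add_zero, ← ez] at g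
  exact g

end Pool.Agent.MP_ea150c_mp.H75
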