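import Pool.Agent.MP_ea150c_mp.H20.SpecM

/-! The Fourier lemma from the character sum for the number of solutions. -/

namespace Pool.Agent.MP_ea150c_mp.H75

open Pool.Agent.MP_ea150c_mp.H20

section
variable {F E : Type} [Field F] [Fintype F] [DecidableEq F] [Fintype E] [DecidableEq E]

/-- The affine weight. -/
def wb (C D : Finset E) (e : E) (a : F) : ℤ :=
  if e ∈ C ∪ D then (if a = 0 then 1 else 0)
  else if a = 0 then (Fintype.card F : ℤ) - 1 else -1

/-- The point of the projective line attached to an affine value. -/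
def pt (D : Finset E) (e : E) (a : F) : Option F := if e ∈ D then none else some a

omit [Fintype E] in
theorem wa_eq (C D : Finset E) (e : E) (o : Option F) :
    wa C D e o = ∑ a : F, wb C D e a * (if o = pt D e a then 1 else 0) := by
  unfold wa wb pt
  by_cases hD : e ∈ D
  · simp [hD]
  · by_cases hC : e ∈ C
    · cases o with
      | none => simp [hD, hC]
      | some b => simp [hD, hC]
    · cases o with
      | none => simp [hD, hC]
      | some b => simp [hD, hC]

theorem pair_eq (C D : Finset E) (f : (E → Option F) → ℤ) :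
    pair (wa C D) f = ∑ α : E → F, (∏ e, wb C D e (α e)) * f (fun e => pt D e (α e)) := by
  unfold pair
  have h1 : ∀ x : E → Option F, (∏ e, wa C D e (x e)) =
      ∑ α : E → F, (∏ e, wb C D e (α e)) * (if x = fun e => pt D e (α e) then 1 else 0) := by
    intro x
    simp only [wa_eq]
    rw [Finset.prod_univ_sum, Fintype.piFinset_univ]
    refine Finset.sum_congr rfl fun α _ => ?_
    rw [Finset.prod_mul_distrib, Finset.prod_boole]
    congr 1
    simp [funext_iff]
  simp only [h1, Finset.sum_mul]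
  rw [Finset.sum_comm]
  refine Finset.sum_congr rfl fun α _ => ?_
  simp

omit [Fintype E] in
theorem edge_sum (C D : Finset E) (ψ : AddChar F ℂ) (hψ : ψ ≠ 1) (e : E) (Q : F) :
    ∑ a : F, (wb C D e a : ℂ) * ψ (a * Q) =
      if e ∈ C ∪ D then 1 else (Fintype.card F : ℂ) * (if Q ≠ 0 then 1 else 0) := by
  unfold wb
  by_cases h : e ∈ C ∪ D
  · simp [h]
  · have hp : ψ.IsPrimitive := AddChar.IsPrimitive.of_ne_one hψ
    have hs := AddChar.sum_mulShift Q hp
    have h2 : ∀ a : F, (((if a = 0 then (Fintype.card F : ℤ) - 1 else -1 : ℤ) : ℂ)) * ψ (a * Q) =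
        (if a = 0 then (Fintype.card F : ℂ) else 0) - ψ (a * Q) := by
      intro a
      by_cases ha : a = 0
      · simp [ha]
      · simp [ha]
    simp only [if_neg h, h2, Finset.sum_sub_distrib, hs]
    by_cases hQ : Q = 0
    · simp [hQ]
    · simp [hQ]

theorem alpha_sum (C D : Finset E) (ψ : AddChar F ℂ) (hψ : ψ ≠ 1) (Q : E → F) :
    ∑ α : E → F, (∏ e, (wb C D e (α e) : ℂ)) * ψ (∑ e, α e * Q e) =
      (Fintype.card F : ℂ) ^ (C ∪ D)ᶜ.card * (if ∀ e ∈ (C ∪ D)ᶜ, Q e ≠ 0 then 1 else 0) := by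
  have h1 : ∀ α : E → F, (∏ e, (wb C D e (α e) : ℂ)) * ψ (∑ e, α e * Q e) =
      ∏ e, ((wb C D e (α e) : ℂ) * ψ (α e * Q e)) := by
    intro α
    rw [Finset.prod_mul_distrib]
    congr 1
    have : ∀ s : Finset E, ψ (∑ e ∈ s, α e * Q e) = ∏ e ∈ s, ψ (α e * Q e) := by
      intro s
      induction s using Finset.induction_on with
      | empty => simp
      | insert a s ha ih => rw [Finset.sum_insert ha, Finset.prod_insert ha, AddChar.map_add_eq_mul, ih]
    exact this _
  simp only [h1]
  rw [← Fintype.piFinset_univ, ← Finset.prod_univ_sum (fun _ => Finset.univ)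
    (fun e a => (wb C D e a : ℂ) * ψ (a * Q e))]
  simp only [edge_sum C D ψ hψ]
  rw [← Finset.prod_mul_prod_compl (C ∪ D)]
  rw [Finset.prod_congr rfl (fun e he => if_pos he),
    Finset.prod_congr rfl (fun e (he : e ∈ (C ∪ D)ᶜ) => if_neg (Finset.mem_compl.1 he))]
  rw [Finset.prod_const_one, one_mul, Finset.prod_mul_distrib, Finset.prod_const,
    Finset.prod_boole]
  by_cases h : ∀ e ∈ (C ∪ D)ᶜ, Q e ≠ 0
  · rw [if_pos h, if_pos h]
  · rw [if_neg h, if_neg h]

end

theorem ofFour : OfFour := by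
  intro h1 F E _ _ _ _ _ U Z C D j hP _
  classical
  let ψ : AddChar F ℂ := AddChar.FiniteField.primitiveChar_to_Complex F
  have hψ : ψ ≠ 1 := by
    have hp : ψ.IsPrimitive := AddChar.FiniteField.primitiveChar_to_Complex_isPrimitive F
    have := hp (a := 1) one_ne_zero
    simpa using this
  let _ : Fintype (van Z D) := Fintype.ofFinite _
  have hpow : ∀ α : E → F, (Nat.card Z : ℂ) ^ j * (nsol U Z (fun e => pt D e (α e)) : ℂ) ^ j =
      (Fintype.card F : ℂ) ^ (j * D.card) * ∑ y : Fin j → van Z D × van Z D,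
        ψ (∑ e, α e * ∑ i, ((y i).1 : E → F) e * ((y i).2 : E → F) e) := by
    intro α
    have h := h1 F E U Z ψ D α hψ hP
    rw [finsum_eq_sum_of_fintype] at h
    rw [← mul_pow]
    unfold pt
    rw [h, mul_pow, ← pow_mul, mul_comm D.card j, Fintype.sum_pow]
    congr 1
    refine Finset.sum_congr rfl fun y _ => ?_
    simp only [Finset.mul_sum]
    rw [Finset.sum_comm]
    have : ∀ s : Finset (Fin j),
        ψ (∑ i ∈ s, ∑ e, α e * (((y i).1 : E → F) e * ((y i).2 : E → F) e)) =
        ∏ i ∈ s, ψ (∑ e, α e * (((y i).1 : E → F) e * ((y i).2 : E → F) e)) := by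
      intro s
      induction s using Finset.induction_on with
      | empty => simp
      | insert a s ha ih => rw [Finset.sum_insert ha, Finset.prod_insert ha, AddChar.map_add_eq_mul, ih]
    exact (this _).symm
  apply Int.cast_injective (α := ℂ)
  rw [pair_eq]
  push_cast
  rw [Finset.mul_sum]
  have h2 : ∀ α : E → F, (Nat.card Z : ℂ) ^ j * ((∏ e, (wb C D e (α e) : ℂ)) *
      (nsol U Z (fun e => pt D e (α e)) : ℂ) ^ j) =
      (Fintype.card F : ℂ) ^ (j * D.card) * ∑ y : Fin j → van Z D × van Z D,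
        (∏ e, (wb C D e (α e) : ℂ)) *
        ψ (∑ e, α e * ∑ i, ((y i).1 : E → F) e * ((y i).2 : E → F) e) := by
    intro α
    rw [← Finset.mul_sum, mul_left_comm, hpow, mul_left_comm]
  simp only [h2]
  rw [← Finset.mul_sum, Finset.sum_comm]
  simp only [alpha_sum C D ψ hψ]
  rw [← Finset.mul_sum, pow_add, mul_assoc]
  congr 2
  unfold NQ
  rw [Finset.sum_boole, Nat.card_eq_fintype_card, Fintype.card_subtype]

end Pool.Agent.MP_ea150c_mp.H75
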