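import Pool.Agent.MP_ea150c_mp.H49.SpecK

/-! Integrality of the kernel coefficients, by a weighted form of Dwork's lemma. -/

namespace Pool.Agent.MP_ea150c_mp.H75

open Pool.Agent.MP_ea150c_mp.H49 PowerSeries

noncomputable section

variable {p : ℕ} [hp : Fact p.Prime]

/-- The sixth root of `p`. -/
def rt (p : ℕ) : ℝ := (p : ℝ) ^ ((1 : ℝ) / 6)

theorem one_lt_rt : 1 < rt p :=
  Real.one_lt_rpow (by exact_mod_cast hp.out.one_lt) (by norm_num)

omit hp in
theorem rt_six : rt p ^ (6 : ℤ) = p := by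
  unfold rt
  rw [← Real.rpow_intCast, ← Real.rpow_mul (Nat.cast_nonneg p)]
  norm_num

/-- The norm of `x` is at most `p^(k/6)`. -/
def Bd (x : ℚ_[p]) (k : ℤ) : Prop := ‖x‖ ≤ rt p ^ k

theorem rt_pos (k : ℤ) : 0 < rt p ^ k := zpow_pos (lt_trans one_pos one_lt_rt) k

theorem Bd.mono {x : ℚ_[p]} {k l : ℤ} (h : Bd x k) (hkl : k ≤ l) : Bd x l :=
  le_trans h (zpow_le_zpow_right₀ one_lt_rt.le hkl)

theorem Bd.mul {x y : ℚ_[p]} {k l : ℤ} (h : Bd x k) (h' : Bd y l) : Bd (x * y) (k + l) := by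
  unfold Bd at *
  rw [norm_mul, zpow_add₀ (lt_trans one_pos one_lt_rt).ne']
  exact mul_le_mul h h' (norm_nonneg _) (rt_pos k).le

theorem Bd.add {x y : ℚ_[p]} {k : ℤ} (h : Bd x k) (h' : Bd y k) : Bd (x + y) k :=
  le_trans (IsUltrametricDist.norm_add_le_max x y) (max_le h h')

theorem Bd.neg {x : ℚ_[p]} {k : ℤ} (h : Bd x k) : Bd (-x) k := by
  unfold Bd at *
  rwa [norm_neg]

theorem Bd.sub {x y : ℚ_[p]} {k : ℤ} (h : Bd x k) (h' : Bd y k) : Bd (x - y) k := by
  rw [sub_eq_add_neg]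
  exact h.add h'.neg

theorem bd_zero (k : ℤ) : Bd (0 : ℚ_[p]) k := by
  unfold Bd
  rw [norm_zero]
  exact (rt_pos k).le

theorem bd_one : Bd (1 : ℚ_[p]) 0 := by
  unfold Bd
  simp

theorem Bd.pow {x : ℚ_[p]} {k : ℤ} (h : Bd x k) (n : ℕ) : Bd (x ^ n) (n * k) := by
  induction n with
  | zero => simpa using bd_one
  | succ n ih =>
    rw [pow_succ]
    exact (ih.mul h).mono (le_of_eq (by push_cast; ring))

theorem bd_sum {ι : Type} (s : Finset ι) (f : ι → ℚ_[p]) (k : ℤ) (h : ∀ i ∈ s, Bd (f i) k) :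
    Bd (∑ i ∈ s, f i) k :=
  IsUltrametricDist.norm_sum_le_of_forall_le_of_nonneg (rt_pos k).le h

theorem bd_p : Bd (p : ℚ_[p]) (-6) := by
  unfold Bd
  rw [Padic.norm_p, zpow_neg, rt_six]

theorem bd_pinv : Bd (p : ℚ_[p])⁻¹ 6 := by
  unfold Bd
  rw [norm_inv, Padic.norm_p, inv_inv, rt_six]

theorem Bd.of_p_mul {x : ℚ_[p]} {k : ℤ} (h : Bd ((p : ℚ_[p]) * x) (k - 6)) : Bd x k := by
  have h0 : (p : ℚ_[p]) ≠ 0 := by exact_mod_cast hp.out.ne_zero
  have := bd_pinv.mul h
  rw [← mul_assoc, inv_mul_cancel₀ h0, one_mul] at this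
  exact this.mono (by omega)

theorem bd_fact (h7 : 7 ≤ p) (a : ℕ) : Bd ((a.factorial : ℚ_[p])⁻¹) ((a - 1 : ℕ) : ℤ) := by
  have h0 : (a.factorial : ℚ_[p]) ≠ 0 := by exact_mod_cast a.factorial_ne_zero
  have hv : 6 * padicValNat p a.factorial ≤ a - 1 := by
    rcases Nat.eq_zero_or_pos a with rfl | ha
    · simp
    · have h1 := sub_one_mul_padicValNat_factorial_lt_of_ne_zero p ha.ne'
      have h2 : 6 * padicValNat p a.factorial ≤ (p - 1) * padicValNat p a.factorial :=
        Nat.mul_le_mul_right _ (by omega)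
      omega
  unfold Bd
  rw [norm_inv, Padic.norm_eq_zpow_neg_valuation h0, Padic.valuation_natCast, zpow_neg, inv_inv,
    ← rt_six, ← zpow_mul]
  exact zpow_le_zpow_right₀ one_lt_rt.le (by exact_mod_cast hv)

theorem bd_fermat {x : ℚ_[p]} (h : ‖x‖ ≤ 1) : Bd (x - x ^ p) (-6) := by
  let z : ℤ_[p] := ⟨x, h⟩
  have h1 : PadicInt.toZMod (z - z ^ p) = 0 := by
    rw [map_sub, map_pow, ZMod.pow_card, sub_self]
  have h2 : z - z ^ p ∈ IsLocalRing.maximalIdeal ℤ_[p] := by
    rw [← PadicInt.ker_toZMod]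
    exact h1
  rw [PadicInt.maximalIdeal_eq_span_p, Ideal.mem_span_singleton] at h2
  obtain ⟨c, hc⟩ := h2
  have h3 : x - x ^ p = (p : ℚ_[p]) * (c : ℚ_[p]) := by
    have := congrArg (fun t : ℤ_[p] => (t : ℚ_[p])) hc
    simpa [z] using this
  rw [h3]
  have h4 : Bd (c : ℚ_[p]) 0 := by
    unfold Bd
    simpa using c.2
  simpa using bd_p.mul h4

/-- The growth exponent. -/
def be (p i : ℕ) : ℕ := 13 * (i / p ^ 2) - 1

omit hp in
theorem be_add (i j : ℕ) : be p i + be p j ≤ be p (i + j) := by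
  unfold be
  have : i / p ^ 2 + j / p ^ 2 ≤ (i + j) / p ^ 2 := Nat.div_add_div_le_add_div
  omega

omit hp in
theorem be_mono {i j : ℕ} (h : i ≤ j) : be p i ≤ be p j := by
  unfold be
  have := Nat.div_le_div_right (c := p ^ 2) h
  omega

theorem bd_coeff_mul (a b : ℚ_[p]⟦X⟧) (n : ℕ) (k : ℤ)
    (h : ∀ i j, i + j = n → Bd (coeff i a * coeff j b) k) : Bd (coeff n (a * b)) k := by
  rw [coeff_mul]
  exact bd_sum _ _ _ fun x hx => h x.1 x.2 (by simpa using hx)

variable (p) in
/-- Power series with controlled growth. -/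
def RR : Subring ℚ_[p]⟦X⟧ where
  carrier := {f | ∀ i, Bd (coeff i f) (be p i)}
  mul_mem' := fun {a b} ha hb n => bd_coeff_mul a b n _ fun i j hij =>
    ((ha i).mul (hb j)).mono (by rw [← hij]; exact_mod_cast be_add i j)
  one_mem' := fun i => by
    rw [coeff_one]
    split_ifs
    · exact bd_one.mono (by positivity)
    · exact bd_zero _
  add_mem' := fun {a b} ha hb n => by
    rw [map_add]
    exact (ha n).add (hb n)
  zero_mem' := fun i => by
    rw [map_zero]
    exact bd_zero _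
  neg_mem' := fun {a} ha n => by
    rw [map_neg]
    exact (ha n).neg

theorem sum_pow_prime {R ι : Type} [CommRing R] (s : Finset ι) (x : ι → R) :
    ∃ y, (∑ i ∈ s, x i) ^ p = ∑ i ∈ s, x i ^ p + p * y := by
  classical
  induction s using Finset.induction_on with
  | empty => exact ⟨0, by simp [hp.out.ne_zero]⟩
  | insert a s ha ih =>
    obtain ⟨y, hy⟩ := ih
    obtain ⟨r, hr⟩ := exists_add_pow_prime_eq hp.out (x a) (∑ i ∈ s, x i)
    refine ⟨y + x a * (∑ i ∈ s, x i) * r, ?_⟩
    rw [Finset.sum_insert ha, Finset.sum_insert ha, hr, hy]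
    ring

/-- The weighted form of Dwork's lemma. -/
theorem dwork (h7 : 7 ≤ p) (F G : ℚ_[p]⟦X⟧) (hF : coeff 0 F = 1) (hG0 : coeff 0 G = 1)
    (hG : ∀ j, 1 ≤ j → Bd (coeff j G) (be p j - 6))
    (hFG : F ^ p = expand p hp.out.ne_zero F * G) (n : ℕ) : Bd (coeff n F) (be p n) := by
  induction n using Nat.strong_induction_on with
  | _ n ih =>
  rcases Nat.eq_zero_or_pos n with rfl | hn
  · rw [hF]
    exact bd_one.mono (by positivity)
  have hp2 : 2 ≤ p := hp.out.two_le
  have hmem : ∀ i ∈ Finset.range n, monomial i (coeff i F) ∈ RR p := by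
    intro i hi l
    rw [coeff_monomial]
    split_ifs with h
    · rw [h]
      exact ih i (Finset.mem_range.1 hi)
    · exact bd_zero _
  set T : ℚ_[p]⟦X⟧ := ∑ i ∈ Finset.range n, monomial i (coeff i F) with hT
  have hTc : ∀ l, l < n → coeff l T = coeff l F := by
    intro l hl
    rw [hT, map_sum]
    simp only [coeff_monomial]
    rw [Finset.sum_ite_eq]
    simp [hl]
  have hTn : coeff n T = 0 := by
    rw [hT, map_sum]
    simp only [coeff_monomial]
    rw [Finset.sum_ite_eq]
    simp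
  obtain ⟨D, hD⟩ : X ^ n ∣ F - T := by
    rw [X_pow_dvd_iff]
    intro l hl
    rw [map_sub, hTc l hl, sub_self]
  have hD0 : coeff 0 D = coeff n F := by
    have := congrArg (coeff n) hD
    rw [map_sub, hTn, sub_zero, coeff_X_pow_mul'] at this
    simpa using this.symm
  have hFT : F = T + X ^ n * D := by rw [← hD]; ring
  have hT0 : constantCoeff T = 1 := by
    rw [← coeff_zero_eq_constantCoeff_apply, hTc 0 hn, hF]
  have h1 : coeff n (F ^ p) = coeff n (T ^ p) + p * coeff n F := by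
    obtain ⟨c, hc⟩ := sq_dvd_add_pow_sub_sub (X ^ n * D) T p
    rw [← hFT] at hc
    have h2 : F ^ p = T ^ p + X ^ n * (C (p : ℚ_[p]) * (T ^ (p - 1) * D)) +
        X ^ (2 * n) * (D ^ 2 * c) := by
      rw [map_natCast]
      linear_combination hc
    rw [h2, map_add, map_add, coeff_X_pow_mul', coeff_X_pow_mul', if_pos le_rfl,
      if_neg (by omega), Nat.sub_self, coeff_C_mul, coeff_zero_eq_constantCoeff_apply, map_mul,
      map_pow constantCoeff, hT0, one_pow, one_mul, ← coeff_zero_eq_constantCoeff_apply, hD0, add_zero]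
  obtain ⟨y, hy⟩ := sum_pow_prime (p := p) (Finset.range n).attach
    (fun i => (⟨monomial i.1 (coeff i.1 F), hmem i.1 i.2⟩ : RR p))
  have hy' : T ^ p = ∑ i ∈ Finset.range n, monomial i (coeff i F) ^ p + C (p : ℚ_[p]) * y.1 := by
    have := congrArg (RR p).subtype hy
    simp only [map_pow, map_sum, map_add, map_mul, map_natCast, Subring.subtype_apply] at this
    rw [Finset.sum_attach (Finset.range n) (fun i => monomial i (coeff i F)),
      Finset.sum_attach (Finset.range n) (fun i => monomial i (coeff i F) ^ p)] at this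
    rw [map_natCast]
    exact this
  have h3 : coeff n (∑ i ∈ Finset.range n, monomial i (coeff i F) ^ p) =
      if p ∣ n then coeff (n / p) F ^ p else 0 := by
    rw [map_sum]
    simp only [monomial_pow, coeff_monomial]
    split_ifs with h
    · obtain ⟨a, rfl⟩ := h
      rw [Nat.mul_div_cancel_left _ hp.out.pos, Finset.sum_eq_single a]
      · simp
      · intro b _ hb
        rw [if_neg]
        intro h
        apply hb
        have : p * a = p * b := by rw [h]; try ring
        exact (Nat.eq_of_mul_eq_mul_left hp.out.pos this).symm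
      · intro ha
        exfalso
        apply ha
        rw [Finset.mem_range]
        have : 0 < a := Nat.pos_of_mul_pos_left hn
        nlinarith
    · refine Finset.sum_eq_zero fun b _ => ?_
      rw [if_neg]
      intro h'
      apply h
      rw [h']
      exact Dvd.intro _ rfl
  have hdiv : ∀ i, i ≤ n → i / p < n := by
    intro i hi
    rcases Nat.eq_zero_or_pos i with rfl | h
    · simpa using hn
    · exact lt_of_lt_of_le (Nat.div_lt_self h hp.out.one_lt) hi
  have h4 : Bd (coeff n (expand p hp.out.ne_zero F * (G - 1))) (be p n - 6) := by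
    refine bd_coeff_mul _ _ _ _ fun i j hij => ?_
    rcases Nat.eq_zero_or_pos j with rfl | hj
    · rw [map_sub, hG0, coeff_one, if_pos rfl, sub_self, mul_zero]
      exact bd_zero _
    · rw [map_sub, coeff_one, if_neg hj.ne', sub_zero, coeff_expand]
      split_ifs
      · refine ((ih _ (hdiv i (by omega))).mul (hG j hj)).mono ?_
        have a1 := be_add (p := p) i j
        have a2 := be_mono (p := p) (Nat.div_le_self i p)
        rw [hij] at a1
        omega
      · rw [zero_mul]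
        exact bd_zero _
  have h5 : Bd ((if p ∣ n then coeff (n / p) F else 0) -
      (if p ∣ n then coeff (n / p) F ^ p else 0)) (be p n - 6) := by
    split_ifs with h
    · obtain ⟨a, rfl⟩ := h
      have ha := ih _ (hdiv _ le_rfl)
      rw [Nat.mul_div_cancel_left _ hp.out.pos] at ha ⊢
      by_cases hle : ‖coeff a F‖ ≤ 1
      · exact (bd_fermat hle).mono (by omega)
      · have hb : 1 ≤ a / p ^ 2 := by
          by_contra hb
          apply hle
          have : be p a = 0 := by unfold be; omega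
          rw [this] at ha
          simpa [Bd] using ha
        have hc : p * (a / p ^ 2) ≤ p * a / p ^ 2 := Nat.mul_div_le_mul_div_assoc _ _ _
        have hd : p * be p a + 6 ≤ be p (p * a) := by
          unfold be
          obtain ⟨c, hc'⟩ : ∃ c, a / p ^ 2 = c + 1 := ⟨a / p ^ 2 - 1, by omega⟩
          rw [hc'] at hc ⊢
          have e1 : 13 * (c + 1) - 1 = 13 * c + 12 := by omega
          rw [e1]
          have e2 : p * (13 * c + 12) + p = 13 * (p * (c + 1)) := by ring
          omega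
        have he : be p a ≤ p * be p a := Nat.le_mul_of_pos_left _ hp.out.pos
        refine (ha.mono (by omega)).sub ((ha.pow p).mono ?_)
        have : ((p * be p a : ℕ) : ℤ) = (p : ℤ) * be p a := by push_cast; ring
        omega
    · rw [sub_zero]
      exact bd_zero _
  have h6 : Bd ((p : ℚ_[p]) * coeff n y.1) (be p n - 6) := (bd_p.mul (y.2 n)).mono (by omega)
  apply Bd.of_p_mul
  have h7' : (p : ℚ_[p]) * coeff n F = ((if p ∣ n then coeff (n / p) F else 0) -
      (if p ∣ n then coeff (n / p) F ^ p else 0)) +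
      coeff n (expand p hp.out.ne_zero F * (G - 1)) - (p : ℚ_[p]) * coeff n y.1 := by
    rw [mul_sub, mul_one, map_sub, ← hFG, h1, hy', map_add, h3, coeff_C_mul, coeff_expand]
    ring
  rw [h7']
  exact (h5.add h4).sub h6

variable (p) in
/-- The series `exp (z + z^p/p)`. -/
def FF : ℚ_[p]⟦X⟧ :=
  exp ℚ_[p] * expand p hp.out.ne_zero (rescale (p : ℚ_[p])⁻¹ (exp ℚ_[p]))

theorem coeff_FF (n : ℕ) : coeff n (FF p) = ((eC p n : ℚ) : ℚ_[p]) := by
  unfold FF eC
  rw [mul_comm, coeff_mul, Finset.Nat.sum_antidiagonal_eq_sum_range_succ_mk]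
  simp only [coeff_expand, coeff_rescale, coeff_exp]
  push_cast
  symm
  refine Finset.sum_of_injOn (fun j => p * j) ?_ ?_ ?_ ?_
  · intro a _ b _ h
    exact Nat.eq_of_mul_eq_mul_left hp.out.pos h
  · intro j hj
    have hj' : j < n / p + 1 := by simpa using hj
    have := Nat.mul_div_le n p
    have h2 : p * j ≤ p * (n / p) := Nat.mul_le_mul_left _ (by omega)
    have h3 : p * j < n + 1 := by omega
    simpa using h3
  · intro i hi h
    rw [if_neg, zero_mul]
    rintro ⟨j, rfl⟩
    apply h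
    refine ⟨j, ?_, rfl⟩
    rw [Finset.mem_coe, Finset.mem_range] at *
    have : j ≤ n / p := (Nat.le_div_iff_mul_le hp.out.pos).2 (by rw [mul_comm]; omega)
    omega
  · intro j _
    rw [if_pos (Dvd.intro _ rfl), Nat.mul_div_cancel_left _ hp.out.pos]
    simp only [one_div, mul_inv, inv_pow]
    ring

theorem bd_eC (h7 : 7 ≤ p) (n : ℕ) : Bd ((eC p n : ℚ) : ℚ_[p]) (be p n) := by
  have h0 : (p : ℚ_[p]) ≠ 0 := by exact_mod_cast hp.out.ne_zero
  have hne := hp.out.ne_zero
  rw [← coeff_FF]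
  have hV : ∀ j, coeff j (expand p hne (expand p hne (rescale (-(p : ℚ_[p])⁻¹) (exp ℚ_[p])))) =
      if p ^ 2 ∣ j then (-(p : ℚ_[p])⁻¹) ^ (j / p ^ 2) * ((j / p ^ 2).factorial : ℚ_[p])⁻¹
      else 0 := by
    intro j
    rw [← expand_mul p hne p hne, coeff_expand, ← pow_two, coeff_rescale, coeff_exp]
    simp
  have hA : ∀ j, coeff j (rescale (p : ℚ_[p]) (exp ℚ_[p])) =
      (p : ℚ_[p]) ^ j * (j.factorial : ℚ_[p])⁻¹ := by
    intro j
    rw [coeff_rescale, coeff_exp]
    simp
  have hVb : ∀ j, Bd (coeff j (expand p hne (expand p hne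
      (rescale (-(p : ℚ_[p])⁻¹) (exp ℚ_[p]))))) (if j = 0 then 0 else (be p j : ℤ) - 6) := by
    intro j
    rw [hV]
    by_cases hj : j = 0
    · subst hj
      simpa using bd_one
    · rw [if_neg hj]
      split_ifs with h
      · have hb : 1 ≤ j / p ^ 2 := Nat.div_pos (Nat.le_of_dvd (Nat.pos_of_ne_zero hj) h)
          (pow_pos hp.out.pos 2)
        refine ((bd_pinv.neg.pow _).mul (bd_fact h7 _)).mono ?_
        unfold be
        omega
      · exact bd_zero _
  have hAb : ∀ j, Bd (coeff j (rescale (p : ℚ_[p]) (exp ℚ_[p]))) (if j = 0 then 0 else -6) := by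
    intro j
    rw [hA]
    refine ((bd_p.pow j).mul (bd_fact h7 j)).mono ?_
    split_ifs <;> omega
  refine dwork h7 (FF p) (rescale (p : ℚ_[p]) (exp ℚ_[p]) *
    expand p hne (expand p hne (rescale (-(p : ℚ_[p])⁻¹) (exp ℚ_[p])))) ?_ ?_ ?_ ?_ n
  · rw [coeff_FF]
    simp [eC]
  · rw [coeff_zero_eq_constantCoeff_apply, map_mul, ← coeff_zero_eq_constantCoeff_apply,
      ← coeff_zero_eq_constantCoeff_apply, hA, hV]
    simp
  · intro j hj
    refine bd_coeff_mul _ _ _ _ fun a b hab => ((hAb a).mul (hVb b)).mono ?_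
    have a1 := be_mono (p := p) (show b ≤ j by omega)
    by_cases ha : a = 0
    · have hb : b = j := by omega
      rw [if_pos ha, if_neg (by omega), hb]
      omega
    · rw [if_neg ha]
      split_ifs <;> omega
  · have e1 : rescale (p : ℚ_[p])⁻¹ (exp ℚ_[p]) ^ p = exp ℚ_[p] := by
      rw [← map_pow, exp_pow_eq_rescale_exp, rescale_rescale, mul_inv_cancel₀ h0, rescale_one]
      rfl
    have e2 : rescale (p : ℚ_[p])⁻¹ (exp ℚ_[p]) * rescale (-(p : ℚ_[p])⁻¹) (exp ℚ_[p]) = 1 := by
      rw [exp_mul_exp_eq_exp_add, add_neg_cancel, rescale_zero]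
      simp
    have e3 : expand p hne (expand p hne (rescale (p : ℚ_[p])⁻¹ (exp ℚ_[p]))) *
        expand p hne (expand p hne (rescale (-(p : ℚ_[p])⁻¹) (exp ℚ_[p]))) = 1 := by
      rw [← map_mul, ← map_mul, e2, map_one, map_one]
    unfold FF
    rw [mul_pow, ← map_pow, e1, map_mul, exp_pow_eq_rescale_exp]
    linear_combination (-(rescale (p : ℚ_[p]) (exp ℚ_[p]) * expand p hne (exp ℚ_[p]))) * e3

theorem bd_kq (h7 : 7 ≤ p) (m' m j : ℕ) : Bd ((kq p m' m j : ℚ) : ℚ_[p]) (-4 * (m' : ℤ)) := by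
  unfold kq
  split_ifs with h
  · push_cast
    rw [div_eq_mul_inv]
    refine ((((bd_one.neg.pow _).mul (bd_p.pow m')).mul (bd_eC h7 _)).mul (bd_fact h7 j)).mono ?_
    have hj : j ≤ m' := by
      by_contra hj
      have : p * (m' + 1) ≤ p * j := Nat.mul_le_mul_left _ (by omega)
      omega
    obtain ⟨k, rfl⟩ := Nat.exists_eq_add_of_le hj
    have h1 : (p * (j + k + 1) - (m + 1) - p * j) / p ≤ k := by
      apply Nat.le_of_lt_succ
      rw [Nat.div_lt_iff_lt_mul hp.out.pos]
      have : p * (j + k + 1) = p * j + k.succ * p := by rw [Nat.succ_eq_add_one]; ring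
      have h3 : 0 < k.succ * p := Nat.mul_pos (Nat.succ_pos k) hp.out.pos
      omega
    have h2 : (p * (j + k + 1) - (m + 1) - p * j) / p ^ 2 ≤ k / 7 := by
      rw [pow_two, ← Nat.div_div_eq_div_mul]
      exact Nat.div_le_div h1 h7 (by norm_num)
    unfold be
    omega
  · simpa using bd_zero _

end

theorem k1 : K1 := by
  intro p hp h7 m' m j
  have hb := bd_kq h7 m' m j
  have h1 : ‖((kq p m' m j : ℚ) : ℚ_[p])‖ ≤ 1 := by
    have := hb.mono (show -4 * (m' : ℤ) ≤ 0 by omega)
    simpa [Bd] using this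
  have h2 : ((kc p m' m j : ℤ_[p]) : ℚ_[p]) = ((kq p m' m j : ℚ) : ℚ_[p]) := by
    unfold kc
    rw [dif_pos h1]
  refine ⟨h2, ?_⟩
  rw [← Ideal.mem_span_singleton, ← PadicInt.norm_le_pow_iff_mem_span_pow,
    PadicInt.norm_le_pow_iff_norm_lt_pow_add_one, PadicInt.norm_def, h2, ← rt_six, ← zpow_mul]
  refine lt_of_le_of_lt hb (zpow_lt_zpow_right₀ one_lt_rt ?_)
  unfold nu
  omega

end Pool.Agent.MP_ea150c_mp.H75
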